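import Mathlib

/-! # Project BN (MP_a2f62e_al): the symmetrizer of a dihedral Hecke algebra as a product -/

set_option autoImplicit false

namespace Pool.Agent.Helper7.BN

variable {A : Type*} [Ring A] [Algebra ℝ A]

/-- alternating product of `k` factors starting with `T s` -/
def alt (T : Bool → A) : Bool → ℕ → A
  | _, 0 => 1
  | s, k + 1 => T s * alt T (!s) k

/-- index of the last factor of the alternating product of `k + 1` factors which starts with `s` -/
def lst (s : Bool) : ℕ → Bool
  | 0 => s
  | k + 1 => !(lst s k)

theorem lst_not (s : Bool) (k : ℕ) : lst (!s) k = !(lst s k) := by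
  induction k with
  | zero => rfl
  | succ k ih => simp [lst, ih]

theorem alt_succ (T : Bool → A) (s : Bool) (k : ℕ) : alt T s (k + 1) = alt T s k * T (lst s k) := by
  induction k generalizing s with
  | zero => simp [alt, lst]
  | succ k ih =>
    rw [alt, ih (!s), alt, mul_assoc, lst_not]
    rfl

/-- the vectors `v k = (1 + T false) T true T false ...` -/
noncomputable def vv (T : Bool → A) (k : ℕ) : A := (1 + T false) * alt T true k

theorem vv_succ (T : Bool → A) (k : ℕ) : vv T (k + 1) = vv T k * T (lst true k) := by
  unfold vv
  rw [alt_succ, mul_assoc]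

variable (T : Bool → A) (q : Bool → ℝ)

theorem vv_back (hT : ∀ s, T s * T s = (q s - 1) • T s + q s • (1 : A)) (k : ℕ) :
    vv T (k + 1) * T (lst true k) = (q (lst true k) - 1) • vv T (k + 1)
      + q (lst true k) • vv T k := by
  rw [vv_succ, mul_assoc, hT, mul_add, mul_smul_comm, mul_smul_comm, mul_one]

theorem vv_zero (hT : ∀ s, T s * T s = (q s - 1) • T s + q s • (1 : A)) :
    vv T 0 * T false = q false • vv T 0 := by
  unfold vv
  rw [alt, mul_one, add_mul, one_mul, hT, sub_smul, one_smul, smul_add]
  abel

/-- the sum of the first vectors -/
noncomputable def SS (T : Bool → A) (k : ℕ) : A := ∑ j ∈ Finset.range k, vv T j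

theorem SS_succ (k : ℕ) : SS T (k + 1) = SS T k + vv T k := by
  unfold SS
  rw [Finset.sum_range_succ]

/-- the sum of `v 0, .., v (k-1)` is an eigenvector of `T (lst true k)` -/
theorem SS_eig (hT : ∀ s, T s * T s = (q s - 1) • T s + q s • (1 : A)) (k : ℕ) :
    SS T k * T (lst true k) = q (lst true k) • SS T k := by
  induction k using Nat.twoStepInduction with
  | zero => simp [SS]
  | one =>
    have h : lst true 1 = false := rfl
    rw [h]
    have h1 : SS T 1 = vv T 0 := by simp [SS]
    rw [h1]
    exact vv_zero T q hT
  | more k ih _ =>
    have h : lst true (k + 2) = lst true k := by simp [lst]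
    rw [h, SS_succ, SS_succ, add_assoc, add_mul, ih, add_mul, vv_back T q hT, ← vv_succ,
      smul_add, smul_add, sub_smul, one_smul]
    abel

/-- the product of the factors `c + T s` of a list -/
noncomputable def wprod (T : Bool → A) (l : List (ℝ × Bool)) : A :=
  (l.map fun x => x.1 • (1 : A) + T x.2).prod

/-- the word `lst true k, lst true (k+1), ..` of length `j` -/
def wd : ℕ → ℕ → List Bool
  | _, 0 => []
  | k, j + 1 => lst true k :: wd (k + 1) j

theorem fill (hq : ∀ s, 0 < q s) (hT : ∀ s, T s * T s = (q s - 1) • T s + q s • (1 : A)) :
    ∀ j k : ℕ, ∃ (c : ℝ) (l : List (ℝ × Bool)), 0 < c ∧ l.map Prod.snd = wd k j ∧ (∀ x ∈ l, 0 < x.1) ∧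
      (c • SS T k + vv T k) * wprod T l = SS T (k + j + 1) := by
  intro j
  induction j with
  | zero =>
    intro k
    refine ⟨1, [], one_pos, rfl, by simp, ?_⟩
    rw [SS_succ, one_smul]
    simp [wprod]
  | succ j ih =>
    intro k
    obtain ⟨c, l, hc, hl, hpos, hX⟩ := ih (k + 1)
    have hs := hq (lst true k)
    refine ⟨c / (c + q (lst true k)), (c, lst true k) :: l, by positivity, by simp [hl, wd], ?_, ?_⟩
    · intro x hx
      rcases List.mem_cons.1 hx with rfl | hx
      · exact hc
      · exact hpos x hx
    · have h1 : wprod T ((c, lst true k) :: l) = (c • (1 : A) + T (lst true k)) * wprod T l := by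
        simp [wprod]
      have h2 : ((c / (c + q (lst true k))) • SS T k + vv T k) * (c • (1 : A) + T (lst true k))
          = c • SS T (k + 1) + vv T (k + 1) := by
        rw [mul_add, mul_smul_comm, mul_one, add_mul, smul_mul_assoc, SS_eig T q hT, ← vv_succ,
          SS_succ, smul_smul, smul_add, smul_smul, smul_add]
        have h3 : (c / (c + q (lst true k))) * q (lst true k) + c * (c / (c + q (lst true k)))
            = c := by
          have : c + q (lst true k) ≠ 0 := by positivity
          field_simp
          ring
        have h4 : c • SS T k = ((c / (c + q (lst true k))) * q (lst true k)) • SS T k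
            + (c * (c / (c + q (lst true k)))) • SS T k := by
          rw [← add_smul, h3]
        rw [h4]
        abel
      rw [h1, ← mul_assoc, h2, hX]
      congr 1
      omega

theorem SS_all (hT : ∀ s, T s * T s = (q s - 1) • T s + q s • (1 : A))
    (n : ℕ) (hbr : alt T true (n + 1) = alt T false (n + 1)) (hodd : Odd (n + 1) → q false = q true)
    (s : Bool) : SS T (n + 1) * T s = q s • SS T (n + 1) := by
  -- the last vector
  have hlast : vv T n * T (lst true n) = q (lst true n) • vv T n := by
    have h1 : vv T n * T (lst true n) = (1 + T false) * (T false * alt T true n) := by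
      rw [← vv_succ]
      unfold vv
      rw [hbr]
      rfl
    have h2 : (1 + T false) * (T false * alt T true n) = q false • vv T n := by
      rw [← mul_assoc, add_mul, one_mul, hT, sub_smul, one_smul]
      have : T false + (q false • T false - T false + q false • (1 : A))
          = q false • (1 + T false) := by
        rw [smul_add]
        abel
      rw [this, smul_mul_assoc]
      rfl
    rw [h1, h2]
    have h3 : q (lst true n) = q false := by
      have key : ∀ n : ℕ, (Odd n → lst true n = false) ∧ (Even n → lst true n = true) := by
        intro n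
        induction n with
        | zero => exact ⟨fun h => absurd h (by decide), fun _ => rfl⟩
        | succ n ih =>
          constructor
          · intro h
            have : Even n := by
              rcases Nat.even_or_odd n with h' | h'
              · exact h'
              · exact absurd (h'.add_odd odd_one) (Nat.not_even_iff_odd.2 h)
            simp [lst, ih.2 this]
          · intro h
            have : Odd n := by
              rcases Nat.even_or_odd n with h' | h'
              · exact absurd (h'.add_odd odd_one) (Nat.not_odd_iff_even.2 h)
              · exact h'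
            simp [lst, ih.1 this]
      rcases Nat.even_or_odd n with h | h
      · rw [(key n).2 h]
        exact (hodd (h.add_odd odd_one)).symm
      · rw [(key n).1 h]
    rw [h3]
  -- either `s = lst true (n+1)` or `s = lst true n`
  by_cases h : s = lst true (n + 1)
  · rw [h]
    exact SS_eig T q hT (n + 1)
  · have h' : s = lst true n := by
      simp only [lst] at h
      cases s <;> cases hh : lst true n <;> simp_all
    rw [h', SS_succ, add_mul, SS_eig T q hT n, hlast, smul_add]

/-- **Rank 2, any `m`.** -/
theorem rank2 (hq : ∀ s, 0 < q s) (hT : ∀ s, T s * T s = (q s - 1) • T s + q s • (1 : A))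
    (n : ℕ) (hbr : alt T true (n + 1) = alt T false (n + 1)) (hodd : Odd (n + 1) → q false = q true) :
    ∃ l : List (ℝ × Bool), l.map Prod.snd = false :: wd 0 n ∧ (∀ x ∈ l, 0 < x.1) ∧
      ∀ s, wprod T l * T s = q s • wprod T l := by
  obtain ⟨c, l, hc, hl, hpos, hX⟩ := fill T q hq hT n 0
  refine ⟨(1, false) :: l, by simp [hl], ?_, ?_⟩
  · intro x hx
    rcases List.mem_cons.1 hx with rfl | hx
    · exact one_pos
    · exact hpos x hx
  have h0 : wprod T ((1, false) :: l) = SS T (n + 1) := by
    have h1 : wprod T ((1, false) :: l) = (1 + T false) * wprod T l := by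
      simp [wprod]
    have h2 : c • SS T 0 + vv T 0 = 1 + T false := by
      simp [SS, vv, alt]
    rw [h1, ← h2, hX]
    congr 1
    omega
  rw [h0]
  exact SS_all T q hT n hbr hodd

end Pool.Agent.Helper7.BN
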