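import Pool.Agent.Helper70.BN.St1
import Pool.Agent.Helper7.BN.Rank2

set_option autoImplicit false

namespace Pool.Agent.Helper7.BN

open Pool.Agent.Helper70.BN

theorem aalt_snoc {l : ℕ} (m : ℕ) : ∀ (i j : Fin l), Pool.Agent.Helper70.BN.alt i j (m + 1) =
    Pool.Agent.Helper70.BN.alt i j m ++ [if Even m then i else j] := by
  induction m with
  | zero => intro i j; rfl
  | succ m ih =>
    intro i j
    have h1 : Pool.Agent.Helper70.BN.alt i j (m + 1 + 1) = i :: Pool.Agent.Helper70.BN.alt j i (m + 1) := rfl
    rw [h1, ih j i]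
    have h2 : Pool.Agent.Helper70.BN.alt i j (m + 1) = i :: Pool.Agent.Helper70.BN.alt j i m := rfl
    rw [h2, List.cons_append]
    have h3 : (if Even (m + 1) then i else j) = (if Even m then j else i) := by
      by_cases h : Even m
      · have h' : ¬ Even (m + 1) := by
          rw [Nat.even_add_one]; exact fun hh => hh h
        rw [if_pos h, if_neg h']
      · have h' : Even (m + 1) := by
          rw [Nat.even_add_one]; exact h
        rw [if_neg h, if_pos h']
    rw [h3]

theorem aalt_reverse {l : ℕ} (m : ℕ) : ∀ (i j : Fin l), (Pool.Agent.Helper70.BN.alt i j m).reverse =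
    if Even m then Pool.Agent.Helper70.BN.alt j i m else Pool.Agent.Helper70.BN.alt i j m := by
  induction m with
  | zero => intro i j; rfl
  | succ m ih =>
    intro i j
    rw [aalt_snoc, List.reverse_append, ih]
    by_cases h : Even m
    · have h' : ¬ Even (m + 1) := by
        rw [Nat.even_add_one]; exact fun hh => hh h
      have h2 := aalt_snoc m i j
      rw [if_pos h] at h2
      rw [if_pos h, if_pos h, if_neg h', ← h2]
      rfl
    · have h' : Even (m + 1) := by
        rw [Nat.even_add_one]; exact h
      rw [if_neg h, if_neg h, if_pos h']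
      rfl

/-- the alternating Boolean word -/
def bw : Bool → ℕ → List Bool
  | _, 0 => []
  | s, m + 1 => s :: bw (!s) m

theorem bw_map {l : ℕ} (f : Bool → Fin l) (m : ℕ) : ∀ s, (bw s m).map f =
    Pool.Agent.Helper70.BN.alt (f s) (f (!s)) m := by
  induction m with
  | zero => intro s; rfl
  | succ m ih =>
    intro s
    have h := ih (!s)
    rw [Bool.not_not] at h
    rw [bw, List.map_cons, h]
    rfl

theorem wd_eq (j : ℕ) : ∀ k, wd k j = bw (lst true k) j := by
  induction j with
  | zero => intro k; rfl
  | succ j ih =>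
    intro k
    rw [wd, ih, bw]
    rfl

theorem alt_unop {H : Type} [Ring H] [Algebra ℝ H] (T : Bool → H) (m : ℕ) : ∀ s,
    MulOpposite.unop (Pool.Agent.Helper7.BN.alt (fun b => MulOpposite.op (T b)) s m) =
      ((bw s m).reverse.map T).prod := by
  induction m with
  | zero => intro s; rfl
  | succ m ih =>
    intro s
    rw [Pool.Agent.Helper7.BN.alt, MulOpposite.unop_mul, ih, bw, List.reverse_cons, List.map_append,
      List.prod_append]
    simp

theorem hRSWP : StRSWP := by
  intro l i j hij hk m hm q hq hodd H _ _ T hT hbr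
  obtain ⟨n, rfl⟩ : ∃ n, m = n + 1 := ⟨m - 1, by omega⟩
  let f : Bool → Fin l := fun b => if b then j else i
  let T' : Bool → Hᵐᵒᵖ := fun b => MulOpposite.op (T (f b))
  let q' : Bool → ℝ := fun b => (q (f b) : ℝ)
  have hq' : ∀ s, 0 < q' s := by
    intro s
    have := hq (f s)
    have h2 : 0 < q (f s) := by omega
    exact Nat.cast_pos.mpr h2
  have hT' : ∀ s, T' s * T' s = (q' s - 1) • T' s + q' s • (1 : Hᵐᵒᵖ) := by
    intro s
    apply MulOpposite.unop_injective
    rw [MulOpposite.unop_mul, MulOpposite.unop_add, MulOpposite.unop_smul, MulOpposite.unop_smul,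
      MulOpposite.unop_one]
    show T (f s) * T (f s) = ((q (f s) : ℝ) - 1) • T (f s) + (q (f s) : ℝ) • (1 : H)
    rw [hT (f s), Algebra.smul_def, Algebra.smul_def, mul_one, add_comm]
  have hrev : ∀ s, (bw s (n + 1)).reverse.map (fun b => T (f b)) =
      (Pool.Agent.Helper70.BN.alt (f s) (f (!s)) (n + 1)).reverse.map T := by
    intro s
    rw [← bw_map f (n + 1) s, ← List.map_reverse, List.map_map]
    rfl
  have hbr' : Pool.Agent.Helper7.BN.alt T' true (n + 1) = Pool.Agent.Helper7.BN.alt T' false (n + 1) := by
    apply MulOpposite.unop_injective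
    have h1 := alt_unop (fun b => T (f b)) (n + 1) true
    have h2 := alt_unop (fun b => T (f b)) (n + 1) false
    have h3 : MulOpposite.unop (Pool.Agent.Helper7.BN.alt T' true (n + 1)) =
      ((bw true (n + 1)).reverse.map (fun b => T (f b))).prod := h1
    have h4 : MulOpposite.unop (Pool.Agent.Helper7.BN.alt T' false (n + 1)) =
      ((bw false (n + 1)).reverse.map (fun b => T (f b))).prod := h2
    rw [h3, h4, hrev, hrev]
    show ((Pool.Agent.Helper70.BN.alt j i (n + 1)).reverse.map T).prod =
      ((Pool.Agent.Helper70.BN.alt i j (n + 1)).reverse.map T).prod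
    rw [aalt_reverse, aalt_reverse]
    split_ifs
    · exact hbr
    · exact hbr.symm
  have hodd' : Odd (n + 1) → q' false = q' true := by
    intro h
    show (q i : ℝ) = (q j : ℝ)
    rw [hodd h]
  obtain ⟨L, hL, hpos, hX⟩ := rank2 T' q' hq' hT' n hbr' hodd'
  refine ⟨(L.map fun x => (f x.2, x.1)).reverse, ?_, ?_, ?_⟩
  · have h1 : ((L.map fun x => (f x.2, x.1)).reverse).map Prod.fst =
        (((L.map Prod.snd)).map f).reverse := by
      rw [List.map_reverse, List.map_map, List.map_map]
      rfl
    have h2 : (L.map Prod.snd).map f = Pool.Agent.Helper70.BN.alt i j (n + 1) := by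
      have h3 : L.map Prod.snd = bw false (n + 1) := by
        rw [hL, wd_eq]
        rfl
      rw [h3, bw_map]
      rfl
    rw [h1, h2, aalt_reverse]
    split_ifs
    · exact Or.inr rfl
    · exact Or.inl rfl
  · intro p hp
    rw [List.mem_reverse, List.mem_map] at hp
    obtain ⟨x, hx, rfl⟩ := hp
    exact hpos x hx
  · intro k
    have hPR : PR T (L.map fun x => (f x.2, x.1)).reverse = MulOpposite.unop (wprod T' L) := by
      unfold PR wprod
      rw [MulOpposite.unop_list_prod, List.map_reverse, List.map_map, List.map_map]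
      congr 2
      apply List.map_congr_left
      intro x _
      show algebraMap ℝ H x.1 + T (f x.2) = MulOpposite.unop (x.1 • (1 : Hᵐᵒᵖ) + T' x.2)
      rw [MulOpposite.unop_add, MulOpposite.unop_smul, MulOpposite.unop_one, Algebra.smul_def, mul_one]
      rfl
    rw [hPR]
    have hs : ∃ s, k = f s := by
      rcases hk k with h | h
      · exact ⟨false, h⟩
      · exact ⟨true, h⟩
    obtain ⟨s, rfl⟩ := hs
    have h5 := congrArg MulOpposite.unop (hX s)
    rw [MulOpposite.unop_mul, MulOpposite.unop_smul, Algebra.smul_def] at h5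
    exact h5

end Pool.Agent.Helper7.BN
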